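import Pool.Agent.Helper84.FP.Goals

/-!
# Project FQ (MP_43a2f8_nt), packet CLO
-/

set_option autoImplicit false

namespace Pool.Agent.Helper20.FQ.CLO

open Finset Pool.Agent.Helper91.FP Pool.Agent.Helper84.FP

theorem G_gt {p k : ℕ} (hp : p.Prime) (hk : 1 ≤ k) : (k + 1) * p ^ k < G p k := by
  have h := G_lower p k hk
  have h2 : 0 < k * p ^ (k - 1) := Nat.mul_pos hk (pow_pos hp.pos _)
  omega

theorem prod_gt {n : ℕ} (K : Finset ℕ) (hK : K ⊆ n.primeFactors) (hne : K.Nonempty) :
    (∏ p ∈ K, (n.factorization p + 1)) * ∏ p ∈ K, p ^ n.factorization p <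
      ∏ p ∈ K, G p (n.factorization p) := by
  rw [← prod_mul_distrib]
  refine prod_lt_prod_of_nonempty (fun p hp => ?_) (fun p hp => ?_) hne
  · exact Nat.mul_pos (Nat.succ_pos _)
      (pow_pos (Nat.prime_of_mem_primeFactors (hK hp)).pos _)
  · exact G_gt (Nat.prime_of_mem_primeFactors (hK hp)) (factorization_pos (hK hp))

theorem t : S_CLO := by
  intro n hn h K hK hKne hKS
  by_contra hno
  push Not at hno
  set k := n.factorization with hk
  have hL : (n.primeFactors \ K).Nonempty := by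
    rw [sdiff_nonempty]
    intro hsub
    exact hKS (Subset.antisymm hK hsub)
  have hprod : (∏ p ∈ n.primeFactors \ K, G p (k p)) * ∏ p ∈ K, G p (k p) =
      n * (1 + n.divisors.card) := by
    rw [prod_sdiff hK]
    exact prod_eq hn h
  have hn' : (∏ p ∈ n.primeFactors \ K, p ^ k p) * ∏ p ∈ K, p ^ k p = n := by
    rw [prod_sdiff hK]
    conv_rhs => rw [← Nat.prod_factorization_pow_eq_self hn.ne']
    rw [Finsupp.prod, Nat.support_factorization]
  have hT : (∏ p ∈ n.primeFactors \ K, (k p + 1)) * ∏ p ∈ K, (k p + 1) =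
      n.divisors.card := by
    rw [prod_sdiff hK]
    exact (card_prod hn.ne').symm
  have h1 := prod_gt K hK hKne
  have h2 := prod_gt (n.primeFactors \ K) sdiff_subset hL
  rw [← hk] at h1 h2
  set A := ∏ p ∈ K, G p (k p)
  set A' := ∏ p ∈ n.primeFactors \ K, G p (k p)
  set P := ∏ p ∈ K, p ^ k p
  set t := ∏ p ∈ K, (k p + 1)
  set t' := ∏ p ∈ n.primeFactors \ K, (k p + 1)
  have hcop : Nat.Coprime (∏ p ∈ n.primeFactors \ K, p ^ k p) A := by
    refine Nat.Coprime.prod_left fun p hp => ?_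
    have hpp := Nat.prime_of_mem_primeFactors (sdiff_subset hp)
    exact Nat.Coprime.pow_left _ ((Nat.Prime.coprime_iff_not_dvd hpp).2 (hno p hp))
  set P' := ∏ p ∈ n.primeFactors \ K, p ^ k p
  have hP' : 0 < P' := prod_pos fun p hp =>
    pow_pos (Nat.prime_of_mem_primeFactors (sdiff_subset hp)).pos _
  have hP : 0 < P := prod_pos fun p hp =>
    pow_pos (Nat.prime_of_mem_primeFactors (hK hp)).pos _
  have ht : 0 < t := prod_pos fun p _ => Nat.succ_pos _
  have hdvd : P' ∣ A' := by
    refine hcop.dvd_of_dvd_mul_right ?_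
    rw [hprod, ← hn', mul_assoc]
    exact dvd_mul_right _ _
  obtain ⟨d, hd⟩ := hdvd
  rw [hd] at h2 hprod
  have hdt : t' < d := by
    rw [mul_comm] at h2
    exact Nat.lt_of_mul_lt_mul_left h2
  have hAd : A * d = P * (1 + n.divisors.card) := by
    have : P' * (A * d) = P' * (P * (1 + n.divisors.card)) := by
      calc P' * (A * d) = P' * d * A := by ring
        _ = n * (1 + n.divisors.card) := hprod
        _ = P' * P * (1 + n.divisors.card) := by rw [hn']
        _ = P' * (P * (1 + n.divisors.card)) := by ring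
    exact Nat.eq_of_mul_eq_mul_left hP' this
  have h3 : (t * P + 1) * (t' + 1) ≤ A * d := Nat.mul_le_mul h1 hdt
  rw [hAd, ← hT] at h3
  nlinarith [Nat.mul_le_mul_right P ht]

end Pool.Agent.Helper20.FQ.CLO
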